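import Pool.Agent.helper96.LK.SpecH

/-!
# lk: PS (helper77)
-/

set_option autoImplicit false

open Finset Filter

namespace Pool.Agent.LK

theorem PS_poly (p : Polynomial ℂ) (h : ∀ᶠ j : ℕ in atTop, p.eval (j : ℂ) = 0) : p = 0 := by
  obtain ⟨N, hN⟩ := eventually_atTop.1 h
  apply Polynomial.eq_zero_of_infinite_isRoot
  have h1 : (Set.range fun k : ℕ => ((k + N : ℕ) : ℂ)).Infinite := by
    apply Set.infinite_range_of_injective
    intro k l hkl
    have h2 : ((k + N : ℕ) : ℂ) = ((l + N : ℕ) : ℂ) := hkl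
    have h3 : k + N = l + N := Nat.cast_injective h2
    omega
  refine h1.mono ?_
  rintro _ ⟨k, rfl⟩
  exact hN (k + N) (by omega)

theorem PS_b1 {a : ℤ} (ha : 2 ≤ a) (Q : Pt) (hy : ∀ z : ℤ, yy a Q ≠ z) (j : ℕ) :
    sg a (shift a Q (0, 1)) j = sg a Q j * ((yy a Q - j) / yy a Q) := by
  have h1 := sg_beta ha Q j
  have h2 : yy a Q ≠ 0 := by exact_mod_cast hy 0
  field_simp
  exact h1

theorem PS_bs {a : ℤ} (ha : 2 ≤ a) (Q : Pt) (m k : ℤ) (hy : ∀ z : ℤ, yy a Q ≠ z) (j : ℕ) :
    sg a (shift a Q (m, k + 1)) j = sg a (shift a Q (m, k)) j * ((yy a Q - k - j) / (yy a Q - k)) := by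
  have h1 : shift a Q (m, k + 1) = shift a (shift a Q (m, k)) (0, 1) := by
    rw [shift_shift]
    congr 1
    ext <;> simp
  have h2 : yy a (shift a Q (m, k)) = yy a Q - k := by rw [yy_shift ha]
  rw [h1, PS_b1 ha _ ?_ j, h2]
  intro z hz
  rw [h2] at hz
  apply hy (z + k)
  push_cast
  linarith

theorem PS_a2 {a : ℤ} (ha : 2 ≤ a) (Q : Pt) (k : ℤ) (hx : ∀ z : ℤ, xx a Q ≠ z) (j : ℕ) :
    sg a (shift a Q (2, k)) j = sg a (shift a Q (0, k)) j * ((xx a Q - j) / xx a Q) := by
  have h1 : shift a Q (2, k) = shift a (shift a Q (0, k)) (2, 0) := by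
    rw [shift_shift]
    congr 1
    ext <;> simp
  have h2 : xx a (shift a Q (0, k)) = xx a Q := by rw [xx_shift ha]; simp
  have h3 := sg_alpha2 ha (shift a Q (0, k)) j
  have h4 : xx a Q ≠ 0 := by exact_mod_cast hx 0
  rw [h1]
  rw [h2] at h3
  field_simp
  exact h3

theorem PS (hNI : NI_stmt) : PS_stmt := by
  intro a dl ha h0 h1 P hP hS A B hR
  have ha2 : (2 : ℤ) ≤ a := by omega
  have hx : ∀ z : ℤ, xx a P ≠ z := by
    intro z
    have := (hNI a dl ha h0 h1 P hP (0, 0) z).1
    rwa [shift_zero] at this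
  have hy : ∀ z : ℤ, yy a P ≠ z := by
    intro z
    have := (hNI a dl ha h0 h1 P hP (0, 0) z).2
    rwa [shift_zero] at this
  have hx1 : ∀ z : ℤ, xx a (shift a P (1, 0)) ≠ z := fun z => (hNI a dl ha h0 h1 P hP (1, 0) z).1
  have hy1 : ∀ z : ℤ, yy a (shift a P (1, 0)) ≠ z := fun z => (hNI a dl ha h0 h1 P hP (1, 0) z).2
  have hLA : LA a dl P = {(0, 0), (0, 1), (0, 2), (1, 0), (1, 1)} := by rw [LA, if_pos hS]
  have hLB : LB a dl P = {(0, 1), (0, 2), (1, 1)} := by rw [LB, if_pos hS]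
  obtain ⟨hR0, hR1⟩ := hR
  set x : ℚ := xx a P with hxd
  set y : ℚ := yy a P with hyd
  have hsg : ∀ j, (sg a P j : ℂ) ≠ 0 := by
    intro j
    have : sg a P j ≠ 0 := mul_ne_zero (ch_ne_zero hx j) (ch_ne_zero hy j)
    exact_mod_cast this
  have hsg1 : ∀ j, (sg a (shift a P (1, 0)) j : ℂ) ≠ 0 := by
    intro j
    have : sg a (shift a P (1, 0)) j ≠ 0 := mul_ne_zero (ch_ne_zero hx1 j) (ch_ne_zero hy1 j)
    exact_mod_cast this
  have e00 : shift a P (0, 0) = P := shift_zero a P
  have e01 : ∀ j, sg a (shift a P (0, 1)) j = sg a P j * ((y - j) / y) := by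
    intro j
    have := PS_bs ha2 P 0 0 hy j
    rw [shift_zero] at this
    simpa using this
  have e02 : ∀ j, sg a (shift a P (0, 2)) j = sg a P j * ((y - j) / y) * ((y - 1 - j) / (y - 1)) := by
    intro j
    have := PS_bs ha2 P 0 1 hy j
    rw [e01] at this
    simpa using this
  have e03 : ∀ j, sg a (shift a P (0, 3)) j = sg a P j * ((y - j) / y) * ((y - 1 - j) / (y - 1)) *
      ((y - 2 - j) / (y - 2)) := by
    intro j
    have := PS_bs ha2 P 0 2 hy j
    rw [e02] at this
    simpa using this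
  have e04 : ∀ j, sg a (shift a P (0, 4)) j = sg a P j * ((y - j) / y) * ((y - 1 - j) / (y - 1)) *
      ((y - 2 - j) / (y - 2)) * ((y - 3 - j) / (y - 3)) := by
    intro j
    have := PS_bs ha2 P 0 3 hy j
    rw [e03] at this
    simpa using this
  have e11 : ∀ j, sg a (shift a P (1, 1)) j = sg a (shift a P (1, 0)) j * ((y - j) / y) := by
    intro j
    have := PS_bs ha2 P 1 0 hy j
    simpa using this
  have e12 : ∀ j, sg a (shift a P (1, 2)) j = sg a (shift a P (1, 0)) j * ((y - j) / y) *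
      ((y - 1 - j) / (y - 1)) := by
    intro j
    have := PS_bs ha2 P 1 1 hy j
    rw [e11] at this
    simpa using this
  have e13 : ∀ j, sg a (shift a P (1, 3)) j = sg a (shift a P (1, 0)) j * ((y - j) / y) *
      ((y - 1 - j) / (y - 1)) * ((y - 2 - j) / (y - 2)) := by
    intro j
    have := PS_bs ha2 P 1 2 hy j
    rw [e12] at this
    simpa using this
  have e21 : ∀ j, sg a (shift a P (2, 1)) j = sg a P j * ((y - j) / y) * ((x - j) / x) := by
    intro j
    have := PS_a2 ha2 P 1 hx j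
    rw [e01] at this
    exact this
  -- the polynomial identities
  have hF : ∀ t : ℂ, t * (A (0, 0) + A (0, 1) * ((y - t) / y) +
      A (0, 2) * ((y - t) / y * ((y - 1 - t) / (y - 1)))) +
      B (0, 1) * ((y - t) / y * ((y - 1 - t) / (y - 1)) * ((y - 2 - t) / (y - 2))) +
      B (0, 2) * ((y - t) / y * ((y - 1 - t) / (y - 1)) * ((y - 2 - t) / (y - 2)) *
        ((y - 3 - t) / (y - 3))) - B (1, 1) * ((y - t) / y * ((x - t) / x)) = 0 := by
    have hp := PS_poly (Polynomial.X * (Polynomial.C (A (0, 0)) +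
      Polynomial.C (A (0, 1)) * ((Polynomial.C (y : ℂ) - Polynomial.X) * Polynomial.C (y : ℂ)⁻¹) +
      Polynomial.C (A (0, 2)) * ((Polynomial.C (y : ℂ) - Polynomial.X) * Polynomial.C (y : ℂ)⁻¹ *
        ((Polynomial.C (y - 1 : ℂ) - Polynomial.X) * Polynomial.C (y - 1 : ℂ)⁻¹))) +
      Polynomial.C (B (0, 1)) * ((Polynomial.C (y : ℂ) - Polynomial.X) * Polynomial.C (y : ℂ)⁻¹ *
        ((Polynomial.C (y - 1 : ℂ) - Polynomial.X) * Polynomial.C (y - 1 : ℂ)⁻¹) *
        ((Polynomial.C (y - 2 : ℂ) - Polynomial.X) * Polynomial.C (y - 2 : ℂ)⁻¹)) +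
      Polynomial.C (B (0, 2)) * ((Polynomial.C (y : ℂ) - Polynomial.X) * Polynomial.C (y : ℂ)⁻¹ *
        ((Polynomial.C (y - 1 : ℂ) - Polynomial.X) * Polynomial.C (y - 1 : ℂ)⁻¹) *
        ((Polynomial.C (y - 2 : ℂ) - Polynomial.X) * Polynomial.C (y - 2 : ℂ)⁻¹) *
        ((Polynomial.C (y - 3 : ℂ) - Polynomial.X) * Polynomial.C (y - 3 : ℂ)⁻¹)) -
      Polynomial.C (B (1, 1)) * ((Polynomial.C (y : ℂ) - Polynomial.X) * Polynomial.C (y : ℂ)⁻¹ *
        ((Polynomial.C (x : ℂ) - Polynomial.X) * Polynomial.C (x : ℂ)⁻¹))) ?_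
    · intro t
      have h2 := congrArg (Polynomial.eval t) hp
      simp only [Polynomial.eval_add, Polynomial.eval_mul, Polynomial.eval_X, Polynomial.eval_C,
        Polynomial.eval_sub, Polynomial.eval_zero] at h2
      simp only [div_eq_mul_inv]
      exact h2
    · filter_upwards [hR0] with j hj
      simp only [Polynomial.eval_add, Polynomial.eval_mul, Polynomial.eval_X, Polynomial.eval_C,
        Polynomial.eval_sub]
      rw [Rel, hLA, hLB] at hj
      simp [Finset.filter_insert, Finset.filter_singleton] at hj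
      rw [e00, e01, e02, e03, e04, e21] at hj
      have h3 := hsg j
      apply mul_left_cancel₀ h3
      rw [mul_zero, ← hj]
      push_cast
      simp only [div_eq_mul_inv]
      ring
  have hG : ∀ t : ℂ, t * (A (1, 0) + A (1, 1) * ((y - t) / y)) +
      B (1, 1) * ((y - t) / y * ((y - 1 - t) / (y - 1)) * ((y - 2 - t) / (y - 2))) -
      (B (0, 1) * ((y - t) / y) + B (0, 2) * ((y - t) / y * ((y - 1 - t) / (y - 1)))) = 0 := by
    have hp := PS_poly (Polynomial.X * (Polynomial.C (A (1, 0)) +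
      Polynomial.C (A (1, 1)) * ((Polynomial.C (y : ℂ) - Polynomial.X) * Polynomial.C (y : ℂ)⁻¹)) +
      Polynomial.C (B (1, 1)) * ((Polynomial.C (y : ℂ) - Polynomial.X) * Polynomial.C (y : ℂ)⁻¹ *
        ((Polynomial.C (y - 1 : ℂ) - Polynomial.X) * Polynomial.C (y - 1 : ℂ)⁻¹) *
        ((Polynomial.C (y - 2 : ℂ) - Polynomial.X) * Polynomial.C (y - 2 : ℂ)⁻¹)) -
      (Polynomial.C (B (0, 1)) * ((Polynomial.C (y : ℂ) - Polynomial.X) * Polynomial.C (y : ℂ)⁻¹) +
      Polynomial.C (B (0, 2)) * ((Polynomial.C (y : ℂ) - Polynomial.X) * Polynomial.C (y : ℂ)⁻¹ *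
        ((Polynomial.C (y - 1 : ℂ) - Polynomial.X) * Polynomial.C (y - 1 : ℂ)⁻¹)))) ?_
    · intro t
      have h2 := congrArg (Polynomial.eval t) hp
      simp only [Polynomial.eval_add, Polynomial.eval_mul, Polynomial.eval_X, Polynomial.eval_C,
        Polynomial.eval_sub, Polynomial.eval_zero] at h2
      simp only [div_eq_mul_inv]
      exact h2
    · filter_upwards [hR1] with j hj
      simp only [Polynomial.eval_add, Polynomial.eval_mul, Polynomial.eval_X, Polynomial.eval_C,
        Polynomial.eval_sub]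
      rw [Rel, hLA, hLB] at hj
      simp [Finset.filter_insert, Finset.filter_singleton] at hj
      rw [e11, e12, e13] at hj
      have h3 := hsg1 j
      apply mul_left_cancel₀ h3
      rw [mul_zero, ← hj]
      push_cast
      simp only [div_eq_mul_inv]
      ring
  have y0 : (y : ℂ) ≠ 0 := by
    have := hy 0
    exact_mod_cast this
  have y1 : (y : ℂ) - 1 ≠ 0 := by
    have := hy 1
    rw [sub_ne_zero]
    exact_mod_cast this
  have y2 : (y : ℂ) - 2 ≠ 0 := by
    have := hy 2
    rw [sub_ne_zero]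
    exact_mod_cast this
  have y3 : (y : ℂ) - 3 ≠ 0 := by
    have := hy 3
    rw [sub_ne_zero]
    exact_mod_cast this
  have x0 : (x : ℂ) ≠ 0 := by
    have := hx 0
    exact_mod_cast this
  have f0 := hF 0
  have f1 := hF 1
  have f2 := hF 2
  have f3 := hF 3
  have f4 := hF 4
  have g0 := hG 0
  have g1 := hG 1
  have g2 := hG 2
  have g3 := hG 3
  have b02 : B (0, 2) = 0 := by
    have h : (24 : ℂ) * B (0, 2) = 0 := by
      linear_combination (norm := (field_simp; ring)) (y * (y - 1) * (y - 2) * (y - 3) : ℂ) *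
        (f4 - 4 * f3 + 6 * f2 - 4 * f1 + f0)
    simpa using h
  have b11 : B (1, 1) = 0 := by
    have h : (6 : ℂ) * B (1, 1) = 0 := by
      linear_combination (norm := (field_simp; ring)) -(y * (y - 1) * (y - 2) : ℂ) *
        (g3 - 3 * g2 + 3 * g1 - g0)
    simpa using h
  have b01 : B (0, 1) = 0 := by
    rw [b02, b11] at g0
    linear_combination (norm := (field_simp; ring)) - g0
  rw [b02, b11, b01] at f0 f1 f2 f3 g0 g1 g2
  have a02 : A (0, 2) = 0 := by
    have h : (6 : ℂ) * A (0, 2) = 0 := by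
      linear_combination (norm := (field_simp; ring)) (y * (y - 1) : ℂ) *
        (f3 - 3 * f2 + 3 * f1 - f0)
    simpa using h
  rw [a02] at f0 f1 f2
  have a01 : A (0, 1) = 0 := by
    have h : (2 : ℂ) * A (0, 1) = 0 := by
      linear_combination (norm := (field_simp; ring)) (-y : ℂ) * (f2 - 2 * f1 + f0)
    simpa using h
  rw [a01] at f1
  have a00 : A (0, 0) = 0 := by
    linear_combination (norm := (field_simp; ring)) f1
  have a11 : A (1, 1) = 0 := by
    have h : (2 : ℂ) * A (1, 1) = 0 := by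
      linear_combination (norm := (field_simp; ring)) (-y : ℂ) * (g2 - 2 * g1 + g0)
    simpa using h
  rw [a11] at g1
  have a10 : A (1, 0) = 0 := by
    linear_combination (norm := (field_simp; ring)) g1
  constructor
  · rw [hLA]
    intro o ho
    simp only [Finset.mem_insert, Finset.mem_singleton] at ho
    rcases ho with rfl | rfl | rfl | rfl | rfl <;> assumption
  · rw [hLB]
    intro o ho
    simp only [Finset.mem_insert, Finset.mem_singleton] at ho
    rcases ho with rfl | rfl | rfl <;> assumption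

end Pool.Agent.LK
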